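import Pool.Agent.Q325.FeasNP

/-!
# Feasibility of prescribed cyclic distances in just-in-time sequences is NP-complete

Definitions: `Pool/Agent/Q325/FeasDefs.lean` (`positions`, `distances`, `IsInst`, `IsJIT`, `FEAS`);
complexity classes: `Pool/Agent/NPC/Defs.lean`.

The reduction is from bin packing with numbers in unary (which is itself reduced from exact cover
by 3-sets): `b` bins of capacity `B` and items with total size `b B`. One letter occurs `b` times
with all distances `B + 1`; it cuts the cycle into `b` gaps of length `B`. An item of size `x` is a
letter which occurs `x` times, all its distances except one being `1`: its occurrences are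
consecutive, so that they lie in one gap.
-/

set_option autoImplicit false

namespace Pool.Agent.Results.MP_0403ae_lc.FeasNPComplete

open Pool.Agent.NPC Pool.Agent.Q325.Feas

/-- **FEAS is NP-complete.** -/
theorem result : InNPP FEAS ∧ NPHardP FEAS :=
  ⟨Pool.Agent.NPC.Q325Feas.inNPP, Pool.Agent.NPC.Q325Feas.hard⟩

end Pool.Agent.Results.MP_0403ae_lc.FeasNPComplete
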